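import Pool.Agent.R711.GP.Defs

/-!
# Graph products of monoids : observation functions
-/

namespace Pool.Agent.R711.GP

universe u v

section obs
variable {V : Type u} (G : SimpleGraph V) {M : V → Type v} [∀ α, Monoid (M α)]

/-- Observation functions: `φ s α` is the `α`-head after removing successively the heads
at the vertices of `s`. -/
abbrev Obs (M : V → Type v) := List V → ∀ α, M α

/-- The shift of an observation function. -/
def sh (γ : V) (φ : Obs M) : Obs M := fun t => φ (γ :: t)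

open Classical in
/-- Left multiplication by `m` at the vertex `β` on observation functions. -/
noncomputable def act (β : V) (m : M β) : List V → Obs M → ∀ α, M α
  | [], φ => Function.update (fun α => if G.Adj β α then φ [] α else
      if m * φ [] β = 1 then φ [β] α else 1) β (m * φ [] β)
  | γ :: s, φ => if γ = β then φ (β :: s) else if G.Adj β γ then act β m s (sh γ φ) else
      if m * φ [] β = 1 then φ (β :: γ :: s) else act β m s φ

/-- Bundled version of `act`. -/
noncomputable def A (β : V) (m : M β) (φ : Obs M) : Obs M := fun s => act G β m s φ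

variable {G}

theorem A_nil_self (β : V) (m : M β) (φ : Obs M) : A G β m φ [] β = m * φ [] β := by
  simp [A, act]

theorem A_nil_adj {β α : V} (h : G.Adj β α) (m : M β) (φ : Obs M) :
    A G β m φ [] α = φ [] α := by
  have : α ≠ β := h.ne'
  simp [A, act, this, h]

theorem A_nil_one {β α : V} (h1 : α ≠ β) (h2 : ¬ G.Adj β α) (m : M β) (φ : Obs M)
    (hm : m * φ [] β = 1) : A G β m φ [] α = φ [β] α := by
  simp [A, act, h1, h2, hm]

theorem A_nil_ne {β α : V} (h1 : α ≠ β) (h2 : ¬ G.Adj β α) (m : M β) (φ : Obs M)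
    (hm : m * φ [] β ≠ 1) : A G β m φ [] α = 1 := by
  simp [A, act, h1, h2, hm]

theorem sh_A_self (β : V) (m : M β) (φ : Obs M) : sh β (A G β m φ) = sh β φ := by
  funext s
  simp [A, act, sh]

theorem sh_A_adj {β γ : V} (h : G.Adj β γ) (m : M β) (φ : Obs M) :
    sh γ (A G β m φ) = A G β m (sh γ φ) := by
  have : γ ≠ β := h.ne'
  funext s
  simp [A, act, sh, this, h]

theorem sh_A_one {β γ : V} (h1 : γ ≠ β) (h2 : ¬ G.Adj β γ) (m : M β) (φ : Obs M)
    (hm : m * φ [] β = 1) : sh γ (A G β m φ) = sh γ (sh β φ) := by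
  funext s
  simp [A, act, sh, h1, h2, hm]

theorem sh_A_ne {β γ : V} (h1 : γ ≠ β) (h2 : ¬ G.Adj β γ) (m : M β) (φ : Obs M)
    (hm : m * φ [] β ≠ 1) : sh γ (A G β m φ) = A G β m φ := by
  funext s
  simp [A, act, sh, h1, h2, hm]

variable (G)

/-- Local conditions. -/
structure LGood (φ : Obs M) : Prop where
  g1 : ∀ β, sh β φ [] β = 1
  g1' : ∀ β, sh β (sh β φ) = sh β φ
  g2 : ∀ β, φ [] β = 1 → sh β φ = φ
  g3 : ∀ β γ, G.Adj β γ → sh γ φ [] β = φ [] β
  g4 : ∀ β γ, G.Adj β γ → sh γ (sh β φ) = sh β (sh γ φ)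
  g5 : ∀ β γ, β ≠ γ → ¬ G.Adj β γ → φ [] β ≠ 1 → φ [] γ = 1

/-- Hereditary version of `LGood`. -/
def Good (φ : Obs M) : Prop := ∀ s : List V, LGood G (fun t => φ (s ++ t))

variable {G}

theorem Good.l {φ : Obs M} (h : Good G φ) : LGood G φ := h []

theorem Good.sh {φ : Obs M} (h : Good G φ) (γ : V) : Good G (sh γ φ) := fun s => h (γ :: s)

theorem A_mul (β : V) (m n : M β) (φ : Obs M) : A G β m (A G β n φ) = A G β (m * n) φ := by
  have key : ∀ (s : List V) (φ : Obs M), A G β m (A G β n φ) s = A G β (m * n) φ s := by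
    intro s
    induction s with
    | nil =>
      intro φ
      funext α
      by_cases h1 : α = β
      · subst h1; simp only [A_nil_self, mul_assoc]
      by_cases h2 : G.Adj β α
      · simp only [A_nil_adj h2]
      by_cases hm : m * n * φ [] β = 1
      · rw [A_nil_one h1 h2 _ _ (by rw [A_nil_self, ← mul_assoc]; exact hm),
          A_nil_one h1 h2 _ _ hm]
        change sh β (A G β n φ) [] α = _
        rw [sh_A_self]; rfl
      · rw [A_nil_ne h1 h2 _ _ (by rw [A_nil_self, ← mul_assoc]; exact hm),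
          A_nil_ne h1 h2 _ _ hm]
    | cons γ s ih =>
      intro φ
      change sh γ (A G β m (A G β n φ)) s = sh γ (A G β (m * n) φ) s
      by_cases h1 : γ = β
      · subst h1; simp only [sh_A_self]
      by_cases h2 : G.Adj β γ
      · simp only [sh_A_adj h2]; exact ih _
      by_cases hm : m * n * φ [] β = 1
      · rw [sh_A_one h1 h2 _ _ (by rw [A_nil_self, ← mul_assoc]; exact hm),
          sh_A_one h1 h2 _ _ hm, sh_A_self]
      · rw [sh_A_ne h1 h2 _ _ (by rw [A_nil_self, ← mul_assoc]; exact hm),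
          sh_A_ne h1 h2 _ _ hm]
        exact ih _
  funext s
  rw [key]

theorem A_one (β : V) (φ : Obs M) (hφ : Good G φ) : A G β 1 φ = φ := by
  have key : ∀ (s : List V) (φ : Obs M), Good G φ → A G β 1 φ s = φ s := by
    intro s
    induction s with
    | nil =>
      intro φ hφ
      funext α
      by_cases h1 : α = β
      · subst h1; simp only [A_nil_self, one_mul]
      by_cases h2 : G.Adj β α
      · simp only [A_nil_adj h2]
      by_cases hm : φ [] β = 1
      · rw [A_nil_one h1 h2 _ _ (by rw [one_mul]; exact hm)]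
        change sh β φ [] α = _
        rw [hφ.l.g2 β hm]
      · rw [A_nil_ne h1 h2 _ _ (by rw [one_mul]; exact hm)]
        exact (hφ.l.g5 β α (Ne.symm h1) h2 hm).symm
    | cons γ s ih =>
      intro φ hφ
      change sh γ (A G β 1 φ) s = sh γ φ s
      by_cases h1 : γ = β
      · subst h1; simp only [sh_A_self]
      by_cases h2 : G.Adj β γ
      · simp only [sh_A_adj h2]; exact ih _ (hφ.sh γ)
      by_cases hm : φ [] β = 1
      · rw [sh_A_one h1 h2 _ _ (by rw [one_mul]; exact hm), hφ.l.g2 β hm]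
      · rw [sh_A_ne h1 h2 _ _ (by rw [one_mul]; exact hm), ih _ hφ,
          hφ.l.g2 γ (hφ.l.g5 β γ (Ne.symm h1) h2 hm)]
  funext s
  rw [key s φ hφ]

theorem A_inv (β : V) (m : M β) (φ : Obs M) (hφ : Good G φ) (hm : m * φ [] β = 1) :
    A G β m φ = sh β φ := by
  have key : ∀ (s : List V) (φ : Obs M), Good G φ → m * φ [] β = 1 →
      A G β m φ s = sh β φ s := by
    intro s
    induction s with
    | nil =>
      intro φ hφ hm
      funext α
      by_cases h1 : α = β
      · subst h1; rw [A_nil_self, hm, hφ.l.g1]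
      by_cases h2 : G.Adj β α
      · rw [A_nil_adj h2, hφ.l.g3 α β h2.symm]
      · rw [A_nil_one h1 h2 _ _ hm]; rfl
    | cons γ s ih =>
      intro φ hφ hm
      change sh γ (A G β m φ) s = sh γ (sh β φ) s
      by_cases h1 : γ = β
      · subst h1; rw [sh_A_self, hφ.l.g1']
      by_cases h2 : G.Adj β γ
      · rw [sh_A_adj h2, ih _ (hφ.sh γ) (by rw [hφ.l.g3 β γ h2]; exact hm), hφ.l.g4 β γ h2]
      · rw [sh_A_one h1 h2 _ _ hm]
  funext s
  rw [key s φ hφ hm]

theorem A_lgood (β : V) (m : M β) (φ : Obs M) (hφ : Good G φ) : LGood G (A G β m φ) := by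
  have L := hφ.l
  have Lb := (hφ.sh β).l
  refine ⟨?_, ?_, ?_, ?_, ?_, ?_⟩
  · intro γ
    by_cases h1 : γ = β
    · subst h1; rw [sh_A_self, L.g1]
    by_cases h2 : G.Adj β γ
    · rw [sh_A_adj h2, A_nil_adj h2, L.g1]
    by_cases hm : m * φ [] β = 1
    · rw [sh_A_one h1 h2 _ _ hm, Lb.g1]
    · rw [sh_A_ne h1 h2 _ _ hm, A_nil_ne h1 h2 _ _ hm]
  · intro γ
    by_cases h1 : γ = β
    · subst h1; rw [sh_A_self, L.g1']
    by_cases h2 : G.Adj β γ
    · rw [sh_A_adj h2, sh_A_adj h2, L.g1']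
    by_cases hm : m * φ [] β = 1
    · rw [sh_A_one h1 h2 _ _ hm, Lb.g1']
    · rw [sh_A_ne h1 h2 _ _ hm, sh_A_ne h1 h2 _ _ hm]
  · intro γ hγ
    by_cases h1 : γ = β
    · subst h1
      rw [A_nil_self] at hγ
      rw [A_inv γ m φ hφ hγ, L.g1']
    by_cases h2 : G.Adj β γ
    · rw [A_nil_adj h2] at hγ
      rw [sh_A_adj h2, L.g2 γ hγ]
    by_cases hm : m * φ [] β = 1
    · rw [A_inv β m φ hφ hm] at hγ ⊢
      exact Lb.g2 γ hγ
    · rw [sh_A_ne h1 h2 _ _ hm]
  · intro δ γ hδγ
    by_cases h1 : γ = β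
    · subst h1
      rw [sh_A_self, A_nil_adj hδγ.symm, L.g3 δ γ hδγ]
    by_cases h2 : G.Adj β γ
    · rw [sh_A_adj h2]
      by_cases k1 : δ = β
      · subst k1; rw [A_nil_self, A_nil_self, L.g3 δ γ hδγ]
      by_cases k2 : G.Adj β δ
      · rw [A_nil_adj k2, A_nil_adj k2, L.g3 δ γ hδγ]
      by_cases hm : m * φ [] β = 1
      · have hm' : m * sh γ φ [] β = 1 := by rw [L.g3 β γ h2]; exact hm
        rw [A_inv β m φ hφ hm, A_inv β m _ (hφ.sh γ) hm', ← L.g4 β γ h2, Lb.g3 δ γ hδγ]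
      · have hm' : m * sh γ φ [] β ≠ 1 := by rw [L.g3 β γ h2]; exact hm
        rw [A_nil_ne k1 k2 _ _ hm, A_nil_ne k1 k2 _ _ hm']
    by_cases hm : m * φ [] β = 1
    · rw [A_inv β m φ hφ hm, Lb.g3 δ γ hδγ]
    · rw [sh_A_ne h1 h2 _ _ hm]
  · intro δ γ hδγ
    by_cases hm : m * φ [] β = 1
    · rw [A_inv β m φ hφ hm, Lb.g4 δ γ hδγ]
    by_cases h1 : γ = β
    · subst h1
      rw [sh_A_adj hδγ.symm, sh_A_self, sh_A_self, L.g4 δ γ hδγ]
    by_cases k1 : δ = β
    · subst k1
      rw [sh_A_adj hδγ, sh_A_self, sh_A_self, L.g4 δ γ hδγ]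
    by_cases h2 : G.Adj β γ
    · have hm' : m * sh γ φ [] β ≠ 1 := by rw [L.g3 β γ h2]; exact hm
      by_cases k2 : G.Adj β δ
      · rw [sh_A_adj h2, sh_A_adj k2, sh_A_adj h2, sh_A_adj k2, L.g4 δ γ hδγ]
      · rw [sh_A_ne k1 k2 _ _ hm, sh_A_adj h2, sh_A_ne k1 k2 _ _ hm']
    · rw [sh_A_ne h1 h2 _ _ hm]
      by_cases k2 : G.Adj β δ
      · have hm' : m * sh δ φ [] β ≠ 1 := by rw [L.g3 β δ k2]; exact hm
        rw [sh_A_adj k2, sh_A_ne h1 h2 _ _ hm']
      · rw [sh_A_ne k1 k2 _ _ hm, sh_A_ne h1 h2 _ _ hm]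
  · intro γ δ hne hna hγ
    by_cases hm : m * φ [] β = 1
    · rw [A_inv β m φ hφ hm] at hγ ⊢
      exact Lb.g5 γ δ hne hna hγ
    by_cases h1 : γ = β
    · subst h1
      exact A_nil_ne (Ne.symm hne) hna _ _ hm
    by_cases h2 : G.Adj β γ
    · rw [A_nil_adj h2] at hγ
      by_cases k1 : δ = β
      · exact absurd (k1 ▸ h2.symm) hna
      by_cases k2 : G.Adj β δ
      · rw [A_nil_adj k2]; exact L.g5 γ δ hne hna hγ
      · exact A_nil_ne k1 k2 _ _ hm
    · exact absurd (A_nil_ne h1 h2 _ _ hm) hγ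

theorem A_good (β : V) (m : M β) (φ : Obs M) (hφ : Good G φ) : Good G (A G β m φ) := by
  intro s
  induction s generalizing φ with
  | nil => exact A_lgood β m φ hφ
  | cons γ s ih =>
    change LGood G (fun t => sh γ (A G β m φ) (s ++ t))
    by_cases h1 : γ = β
    · subst h1; rw [sh_A_self]; exact (hφ.sh γ) s
    by_cases h2 : G.Adj β γ
    · rw [sh_A_adj h2]; exact ih _ (hφ.sh γ)
    by_cases hm : m * φ [] β = 1
    · rw [sh_A_one h1 h2 _ _ hm]; exact ((hφ.sh β).sh γ) s
    · rw [sh_A_ne h1 h2 _ _ hm]; exact ih _ hφ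

theorem A_comm {β γ : V} (h : G.Adj β γ) (m : M β) (n : M γ) (φ : Obs M) (hφ : Good G φ) :
    A G β m (A G γ n φ) = A G γ n (A G β m φ) := by
  have key : ∀ (s : List V) (φ : Obs M), Good G φ →
      A G β m (A G γ n φ) s = A G γ n (A G β m φ) s := by
    intro s
    induction s with
    | nil =>
      intro φ hφ
      have L := hφ.l
      funext α
      by_cases e1 : α = β
      · subst e1
        rw [A_nil_self, A_nil_adj h.symm, A_nil_adj h.symm, A_nil_self]
      by_cases e2 : α = γ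
      · subst e2
        rw [A_nil_adj h, A_nil_self, A_nil_self, A_nil_adj h]
      by_cases hm : m * φ [] β = 1
      · have hm' : m * A G γ n φ [] β = 1 := by rw [A_nil_adj h.symm]; exact hm
        rw [A_inv β m _ (A_good γ n φ hφ) hm', A_inv β m φ hφ hm, sh_A_adj h.symm]
      by_cases hn : n * φ [] γ = 1
      · have hn' : n * A G β m φ [] γ = 1 := by rw [A_nil_adj h]; exact hn
        rw [A_inv γ n _ (A_good β m φ hφ) hn', A_inv γ n φ hφ hn, sh_A_adj h]
      have hm' : m * A G γ n φ [] β ≠ 1 := by rw [A_nil_adj h.symm]; exact hm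
      have hn' : n * A G β m φ [] γ ≠ 1 := by rw [A_nil_adj h]; exact hn
      by_cases f1 : G.Adj β α
      · by_cases f2 : G.Adj γ α
        · rw [A_nil_adj f1, A_nil_adj f2, A_nil_adj f2, A_nil_adj f1]
        · rw [A_nil_adj f1, A_nil_ne e2 f2 _ _ hn, A_nil_ne e2 f2 _ _ hn']
      · by_cases f2 : G.Adj γ α
        · rw [A_nil_ne e1 f1 _ _ hm', A_nil_adj f2, A_nil_ne e1 f1 _ _ hm]
        · rw [A_nil_ne e1 f1 _ _ hm', A_nil_ne e2 f2 _ _ hn']
    | cons δ s ih =>
      intro φ hφ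
      have L := hφ.l
      change sh δ (A G β m (A G γ n φ)) s = sh δ (A G γ n (A G β m φ)) s
      by_cases e1 : δ = β
      · subst e1
        rw [sh_A_self, sh_A_adj h.symm, sh_A_adj h.symm, sh_A_self]
      by_cases e2 : δ = γ
      · subst e2
        rw [sh_A_adj h, sh_A_self, sh_A_self, sh_A_adj h]
      by_cases hm : m * φ [] β = 1
      · have hm' : m * A G γ n φ [] β = 1 := by rw [A_nil_adj h.symm]; exact hm
        rw [A_inv β m _ (A_good γ n φ hφ) hm', A_inv β m φ hφ hm, sh_A_adj h.symm]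
      by_cases hn : n * φ [] γ = 1
      · have hn' : n * A G β m φ [] γ = 1 := by rw [A_nil_adj h]; exact hn
        rw [A_inv γ n _ (A_good β m φ hφ) hn', A_inv γ n φ hφ hn, sh_A_adj h]
      have hm' : m * A G γ n φ [] β ≠ 1 := by rw [A_nil_adj h.symm]; exact hm
      have hn' : n * A G β m φ [] γ ≠ 1 := by rw [A_nil_adj h]; exact hn
      by_cases f1 : G.Adj β δ
      · by_cases f2 : G.Adj γ δ
        · rw [sh_A_adj f1, sh_A_adj f2, sh_A_adj f2, sh_A_adj f1]
          exact ih _ (hφ.sh δ)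
        · rw [sh_A_adj f1, sh_A_ne e2 f2 _ _ hn, sh_A_ne e2 f2 _ _ hn']
          exact ih _ hφ
      · by_cases f2 : G.Adj γ δ
        · rw [sh_A_ne e1 f1 _ _ hm', sh_A_adj f2, sh_A_ne e1 f1 _ _ hm]
          exact ih _ hφ
        · rw [sh_A_ne e1 f1 _ _ hm', sh_A_ne e2 f2 _ _ hn']
          exact ih _ hφ
  funext s
  rw [key s φ hφ]

theorem good_one : Good G (fun (_ : List V) (α : V) => (1 : M α)) := by
  intro s
  refine ⟨?_, ?_, ?_, ?_, ?_, ?_⟩ <;> intros <;> rfl

end obs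

end Pool.Agent.R711.GP
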