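import Mathlib

/-!
# Graph products of monoids and the relation R-tilde : definitions
-/

namespace Pool.Agent.R711.GP

universe u v

section defs
variable {V : Type u} (G : SimpleGraph V) (M : V → Type v) [∀ α, Monoid (M α)]

/-- The defining relations of the graph product, on the free monoid over the disjoint union
of the vertex monoids. -/
inductive Rel : FreeMonoid (Σ α, M α) → FreeMonoid (Σ α, M α) → Prop
  | mul (α : V) (a b : M α) :
      Rel (FreeMonoid.of ⟨α, a⟩ * FreeMonoid.of ⟨α, b⟩) (FreeMonoid.of ⟨α, a * b⟩)
  | one (α : V) : Rel (FreeMonoid.of ⟨α, 1⟩) 1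
  | comm (α β : V) (a : M α) (b : M β) (h : G.Adj α β) :
      Rel (FreeMonoid.of ⟨α, a⟩ * FreeMonoid.of ⟨β, b⟩)
        (FreeMonoid.of ⟨β, b⟩ * FreeMonoid.of ⟨α, a⟩)

/-- The graph product: the quotient of the free monoid by the congruence generated by `Rel`. -/
def GraphProduct : Type (max u v) := (conGen (Rel G M)).Quotient

/-- The graph product is a monoid (quotient of the free monoid by a congruence). -/
noncomputable instance : Monoid (GraphProduct G M) :=
  inferInstanceAs (Monoid (conGen (Rel G M)).Quotient)

end defs

/-- The relation R-tilde on a monoid: `a` and `b` have the same idempotent left identities. -/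
def RTilde {S : Type*} [Monoid S] (a b : S) : Prop :=
  ∀ e : S, e * e = e → (e * a = a ↔ e * b = b)

/-- A left congruence: an equivalence relation compatible with left multiplication. -/
def IsLeftCongruence {S : Type*} [Monoid S] (ρ : S → S → Prop) : Prop :=
  Equivalence ρ ∧ ∀ a b c : S, ρ a b → ρ (c * a) (c * b)

end Pool.Agent.R711.GP
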