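import Pool.Agent.R711.GP.Word

/-!
# Graph products of monoids : idempotents and the relation R-tilde
-/

namespace Pool.Agent.R711.GP

universe u v

theorem rtilde_equivalence {S : Type*} [Monoid S] : Equivalence (RTilde (S := S)) :=
  ⟨fun _ _ _ => Iff.rfl, fun h e he => (h e he).symm, fun h k e he => (h e he).trans (k e he)⟩

variable {V : Type u} {G : SimpleGraph V} {M : V → Type v} [∀ α, Monoid (M α)]

/-- No cancellation between a reduced word and `y`: lengths grow. -/
theorem growth (y : GraphProduct G M) : ∀ w : List (Σ α, M α), Red G w →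
    (∀ w1 β (m : M β) w2, w = w1 ++ ⟨β, m⟩ :: w2 → (∀ l ∈ w2, G.Adj l.1 β) →
      m * head β y ≠ 1) →
    (∀ β, (¬ ∀ l ∈ w, G.Adj l.1 β) → hd G β w = 1 → head β (ev w * y) = 1) ∧
    len y ≤ len (ev w * y) ∧
    (len (ev w * y) = len y → w.Pairwise (fun a b => G.Adj a.1 b.1)) := by
  intro w
  induction w with
  | nil =>
    intro _ _
    refine ⟨fun β h => absurd (by simp) h, by simp, fun _ => List.Pairwise.nil⟩
  | cons l w ih =>
    obtain ⟨γ, m⟩ := l
    intro hr hs
    obtain ⟨h1, h2, h3⟩ := hr
    obtain ⟨i1, i2, i3⟩ := ih h3 (fun w1 β m' w2 hw hl =>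
      hs (⟨γ, m⟩ :: w1) β m' w2 (by rw [hw]; rfl) hl)
    have hYa : (∀ l ∈ w, G.Adj l.1 γ) ∨ head γ (ev w * y) = 1 := by
      by_cases hall : ∀ l ∈ w, G.Adj l.1 γ
      · exact Or.inl hall
      · exact Or.inr (i1 γ hall h2)
    have hmY : m * head γ (ev w * y) ≠ 1 := by
      rcases hYa with hall | h
      · rw [head_link hall]
        exact hs [] γ m w rfl hall
      · rw [h, mul_one]; exact h1
    refine ⟨?_, ?_, ?_⟩
    · intro β hnot hhd
      rw [ev_cons, mul_assoc]
      by_cases e : γ = β
      · subst e
        rw [hd_self] at hhd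
        exact absurd hhd h1
      by_cases f : G.Adj γ β
      · rw [head_adj f]
        rw [hd_adj f] at hhd
        apply i1 β _ hhd
        intro hall
        apply hnot
        intro k hk
        rcases List.mem_cons.1 hk with rfl | hk
        · exact f
        · exact hall k hk
      · exact head_ne (Ne.symm e) f _ _ hmY
    · rw [ev_cons, mul_assoc]
      by_cases hh : head γ (ev w * y) = 1
      · rw [len_mul_one h1 hh]; omega
      · rw [len_mul_ne hmY hh]; exact i2
    · intro heq
      rw [ev_cons, mul_assoc] at heq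
      by_cases hh : head γ (ev w * y) = 1
      · rw [len_mul_one h1 hh] at heq; omega
      · rw [len_mul_ne hmY hh] at heq
        rcases hYa with hall | h
        · exact List.pairwise_cons.2 ⟨fun k hk => (hall k hk).symm, i3 heq⟩
        · exact absurd h hh

/-- Structure of idempotents. -/
theorem classify (e : GraphProduct G M) (he : e * e = e) :
    (∃ w : List (Σ α, M α), Red G w ∧ ev w = e ∧ w.Pairwise (fun a b => G.Adj a.1 b.1)) ∨
    (∃ (β : V) (g g' : M β) (w1 : List (Σ α, M α)), g' * g = 1 ∧
      Red G (⟨β, g⟩ :: (w1 ++ [⟨β, g'⟩])) ∧ ev (⟨β, g⟩ :: (w1 ++ [⟨β, g'⟩])) = e) := by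
  obtain ⟨w, hw, hwe⟩ := exists_red e
  by_cases H : ∀ w1 β (m : M β) w2, w = w1 ++ ⟨β, m⟩ :: w2 → (∀ l ∈ w2, G.Adj l.1 β) →
      m * head β e ≠ 1
  · left
    obtain ⟨_, _, h3⟩ := growth e w hw H
    exact ⟨w, hw, hwe, h3 (by rw [hwe, he])⟩
  · right
    push Not at H
    obtain ⟨w1, β, m, w2, hsp, hl, hm⟩ := H
    obtain ⟨u, hu, hue, hul⟩ := exists_red_le (G := G) (w1 ++ w2)
    have hev : ev (G := G) (u ++ [⟨β, m⟩]) = e := by
      rw [ev_append, hue, ev_append, ← hwe, hsp, ev_append, ev_cons, ev_cons, ev_nil, mul_one,
        mul_assoc, comm_link hl]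
    have hlen : len e = w.length := by rw [← hwe, len_red hw]
    have hlen2 : (u ++ [(⟨β, m⟩ : Σ α, M α)]).length ≤ len e := by
      rw [hlen, hsp]
      simp only [List.length_append, List.length_cons, List.length_nil] at hul ⊢
      omega
    have hR : Red G (u ++ [⟨β, m⟩]) := red_of_min (by rw [hev]; exact hlen2)
    have hm1 : m ≠ 1 := hR.mem ⟨β, m⟩ (by simp)
    have hg : hd G β (u ++ [⟨β, m⟩]) = head β e := by rw [← head_red hR, hev]
    by_cases hall : ∀ l ∈ u, G.Adj l.1 β
    · exfalso
      rw [hd_link hall, hd_self] at hg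
      rw [← hg] at hm
      have h1 : head β (e * e) = m * m := by
        nth_rewrite 1 [← hev]
        rw [← hev, ev_append, ev_cons, ev_nil, mul_one, comm_link hall, mul_assoc, head_self,
          head_link hall, head_self]
        have h5 := head_link hall (1 : GraphProduct G M)
        rw [mul_one, head_one] at h5
        rw [h5, mul_one]
      rw [he, ← hg, hm] at h1
      exact hm1 h1
    · rw [hd_block hall] at hg
      have hgne : hd G β u ≠ 1 := by
        intro h
        rw [← hg, h, mul_one] at hm
        exact hm1 hm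
      obtain ⟨w3, s1, s2, s3, s4⟩ := extract hu β hgne
      have hev2 : ev (G := G) (⟨β, hd G β u⟩ :: (w3 ++ [⟨β, m⟩])) = e := by
        rw [ev_cons, ev_append, ← mul_assoc, ← s4, ← ev_append, hev]
      refine ⟨β, hd G β u, m, w3, by rw [hg]; exact hm, red_of_min ?_, hev2⟩
      rw [hev2]
      simp only [List.length_append, List.length_cons, List.length_nil] at hlen2 ⊢
      omega

/-- Data attached to a non-clique idempotent. -/
structure Split (e : GraphProduct G M) (β : V) (g g' : M β) (e1 : GraphProduct G M) : Prop where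
  inv : g' * g = 1
  idem : e1 * e1 = e1
  eq : e = ι G β g * (e1 * ι G β g')
  lt : len e1 < len e
  hone : head β e1 = 1
  hg : head β e = g
  gne : g ≠ 1
  gne' : g' ≠ 1
  hadj : ∀ γ, G.Adj β γ → head γ e = head γ e1

theorem split_of (e : GraphProduct G M) (he : e * e = e) (β : V) (g g' : M β)
    (w1 : List (Σ α, M α)) (hinv : g' * g = 1) (hR : Red G (⟨β, g⟩ :: (w1 ++ [⟨β, g'⟩])))
    (hev : ev (⟨β, g⟩ :: (w1 ++ [⟨β, g'⟩])) = e) : Split e β g g' (ev w1) := by
  have heq : e = ι G β g * (ev w1 * ι G β g') := by
    rw [← hev, ev_cons, ev_append, ev_cons, ev_nil, mul_one]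
  have hι : ι G β g' * ι G β g = 1 := by rw [← ι_mul, hinv, ι_one]
  have hR1 : Red G (w1 ++ [⟨β, g'⟩]) := hR.2.2
  have h2 : hd G β (w1 ++ [⟨β, g'⟩]) = 1 := hR.2.1
  have hgne : g ≠ 1 := hR.1
  have hgne' : g' ≠ 1 := hR.mem ⟨β, g'⟩ (by simp)
  have hblock : ¬ ∀ l ∈ w1, G.Adj l.1 β := by
    intro hall
    rw [hd_link hall, hd_self] at h2
    exact hgne' h2
  have hlen : len e = w1.length + 2 := by
    rw [← hev, len_red hR]
    simp
  have e1eq : ev (G := G) w1 = ι G β g' * (e * ι G β g) := by
    rw [heq]
    simp only [mul_assoc]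
    rw [hι, mul_one, ← mul_assoc, hι, one_mul]
  have hegg : e * (ι G β g * ι G β g') = e := by
    rw [heq]
    simp only [mul_assoc]
    rw [← mul_assoc (ι G β g') (ι G β g), hι, one_mul]
  have hlt : len (ev (G := G) w1) < len e := by
    have := len_le (G := G) w1
    omega
  -- `w1` itself is reduced
  have hRw : Red G w1 := by
    apply red_of_min
    by_contra hcon
    push Not at hcon
    obtain ⟨w', r1, r2⟩ := exists_red (ev (G := G) w1)
    have hl' : w'.length < w1.length := by rw [← len_red r1, r2]; exact hcon
    have : len e ≤ w'.length + 2 := by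
      have h5 : ev (G := G) (⟨β, g⟩ :: (w' ++ [⟨β, g'⟩])) = e := by
        rw [ev_cons, ev_append, r2, ev_cons, ev_nil, mul_one, heq]
      rw [← h5]
      refine (len_le _).trans ?_
      simp
    omega
  refine ⟨hinv, ?_, heq, hlt, ?_, ?_, hgne, hgne', ?_⟩
  · rw [e1eq]
    calc ι G β g' * (e * ι G β g) * (ι G β g' * (e * ι G β g))
        = ι G β g' * (e * (ι G β g * ι G β g')) * (e * ι G β g) := by simp only [mul_assoc]
      _ = ι G β g' * e * (e * ι G β g) := by rw [hegg]
      _ = ι G β g' * ((e * e) * ι G β g) := by simp only [mul_assoc]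
      _ = _ := by rw [he]
  · rw [head_red hRw, ← hd_block hblock [⟨β, g'⟩]]
    exact h2
  · rw [← hev, head_red hR, hd_self]
  · intro γ hγ
    rw [← hev, head_red hR, hd_adj hγ, hd_append_ne hγ.ne', head_red hRw]

theorem classify' (e : GraphProduct G M) (he : e * e = e) :
    (∃ w : List (Σ α, M α), Red G w ∧ ev w = e ∧ w.Pairwise (fun a b => G.Adj a.1 b.1)) ∨
    (∃ (β : V) (g g' : M β) (e1 : GraphProduct G M), Split e β g g' e1) := by
  rcases classify e he with h | ⟨β, g, g', w1, h1, h2, h3⟩
  · exact Or.inl h
  · exact Or.inr ⟨β, g, g', ev w1, split_of e he β g g' w1 h1 h2 h3⟩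

namespace Split

variable {e : GraphProduct G M} {β : V} {g g' : M β} {e1 : GraphProduct G M}

theorem ιinv (h : Split e β g g' e1) : ι G β g' * ι G β g = 1 := by
  rw [← ι_mul, h.inv, ι_one]

theorem fix (h : Split e β g g' e1) {x : GraphProduct G M} (hx : e * x = x) :
    e1 * (ι G β g' * x) = ι G β g' * x ∧ x = ι G β g * (ι G β g' * x) := by
  have h1 : x = ι G β g * (e1 * (ι G β g' * x)) := by
    conv_lhs => rw [← hx, h.eq]
    simp only [mul_assoc]
  have h2 : e1 * (ι G β g' * x) = ι G β g' * x := by
    calc e1 * (ι G β g' * x) = (ι G β g' * ι G β g) * (e1 * (ι G β g' * x)) := by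
          rw [h.ιinv, one_mul]
      _ = ι G β g' * (ι G β g * (e1 * (ι G β g' * x))) := mul_assoc _ _ _
      _ = ι G β g' * x := by rw [← h1]
  exact ⟨h2, by conv_lhs => rw [h1, h2]⟩

end Split

/-- Every letter commuting condition: `x` lies in the link of `γ`. -/
def InLink (γ : V) (x : GraphProduct G M) : Prop :=
  ∃ w : List (Σ α, M α), ev w = x ∧ ∀ l ∈ w, G.Adj l.1 γ

theorem Split.not_link {e : GraphProduct G M} {β : V} {g g' : M β} {e1 : GraphProduct G M}
    (h : Split e β g g' e1) : ¬ InLink β e1 := by
  rintro ⟨w, hw, hl⟩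
  have h1 : e = ι G β g * (ι G β g' * e1) := by
    rw [h.eq, ← hw, comm_link hl]
  have h2 : head β e = g * g' := by
    rw [h1, head_self, head_self, h.hone, mul_one]
  rw [h.hg] at h2
  have h3 : g' = 1 := by
    calc g' = (g' * g) * g' := by rw [h.inv, one_mul]
      _ = g' * (g * g') := mul_assoc _ _ _
      _ = g' * g := by rw [← h2]
      _ = 1 := h.inv
  exact h.gne' h3

/-- Letters of a clique idempotent fix whatever the idempotent fixes. -/
theorem clique_fix {w : List (Σ α, M α)} (hp : w.Pairwise (fun a b => G.Adj a.1 b.1))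
    (he : ev (G := G) w * ev w = ev w) {x : GraphProduct G M} (hx : ev w * x = x) :
    ∀ l ∈ w, l.2 * l.2 = l.2 ∧ ι G l.1 l.2 * x = x := by
  intro l hl
  obtain ⟨γ, m⟩ := l
  obtain ⟨w1, w2, hsp⟩ := List.append_of_mem hl
  have hadj : ∀ k ∈ w1 ++ w2, G.Adj k.1 γ := by
    rw [hsp, List.pairwise_append] at hp
    obtain ⟨_, h2, h3⟩ := hp
    rw [List.pairwise_cons] at h2
    intro k hk
    rcases List.mem_append.1 hk with hk | hk
    · exact h3 k hk ⟨γ, m⟩ (by simp)
    · exact (h2.1 k hk).symm
  have hev : ev (G := G) w = ι G γ m * ev (w1 ++ w2) := by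
    rw [hsp, ev_append, ev_cons, ev_append, ← mul_assoc, ← mul_assoc,
      comm_link (fun k hk => hadj k (by simp [hk]))]
  have h1 : head γ (ev (G := G) w) = m := by
    rw [hev, head_self]
    have h5 := head_link hadj (1 : GraphProduct G M)
    rw [mul_one, head_one] at h5
    rw [h5, mul_one]
  have h2 : m * m = m := by
    have h3 : head γ (ev (G := G) w * ev w) = m * m := by
      nth_rewrite 1 [hev]
      rw [mul_assoc, head_self, head_link hadj, h1]
    rw [he, h1] at h3
    exact h3.symm
  refine ⟨h2, ?_⟩
  calc ι G γ m * x = ι G γ m * (ev w * x) := by rw [hx]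
    _ = ι G γ m * ι G γ m * (ev (w1 ++ w2) * x) := by rw [hev]; simp only [mul_assoc]
    _ = ι G γ m * (ev (w1 ++ w2) * x) := by rw [← ι_mul, h2]
    _ = ev w * x := by rw [hev, mul_assoc]
    _ = x := hx

theorem clique_fix_conv {w : List (Σ α, M α)} {x : GraphProduct G M}
    (h : ∀ l ∈ w, ι G l.1 l.2 * x = x) : ev w * x = x := by
  induction w with
  | nil => simp
  | cons l w ih =>
    rw [ev_cons, mul_assoc, ih (fun k hk => h k (by simp [hk])), h l (by simp)]

/-- Heads of fixed points of an idempotent. -/
theorem fixed_head : ∀ (n : ℕ) (e : GraphProduct G M), e * e = e → len e ≤ n →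
    ∀ x : GraphProduct G M, e * x = x → ∀ γ, head γ x ≠ 1 → head γ e ≠ 1 ∨ InLink γ e := by
  intro n
  induction n with
  | zero =>
    intro e he hn x hx γ hγ
    right
    obtain ⟨w, hw, hwe⟩ := exists_red e
    have : w.length = 0 := by
      have := len_red hw
      rw [hwe] at this
      omega
    rw [List.length_eq_zero_iff] at this
    subst this
    exact ⟨[], hwe, by simp⟩
  | succ n ih =>
    intro e he hn x hx γ hγ
    rcases classify' e he with ⟨w, hw, hwe, hp⟩ | ⟨β, g, g', e1, hS⟩
    · have hfix := clique_fix hp (by rw [hwe]; exact he) (x := x) (by rw [hwe]; exact hx)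
      by_cases hγw : ∃ l ∈ w, l.1 = γ
      · left
        obtain ⟨⟨δ, m⟩, hl, hlγ⟩ := hγw
        simp only at hlγ
        subst hlγ
        obtain ⟨w1, w2, hsp⟩ := List.append_of_mem hl
        have hadj : ∀ k ∈ w1, G.Adj k.1 δ := by
          rw [hsp, List.pairwise_append] at hp
          intro k hk
          exact hp.2.2 k hk ⟨δ, m⟩ (by simp)
        rw [← hwe, head_red hw, hsp, hd_link hadj, hd_self]
        exact hw.mem _ hl
      · right
        refine ⟨w, hwe, ?_⟩
        intro l hl
        obtain ⟨δ, m⟩ := l
        have h1 := (hfix ⟨δ, m⟩ hl).2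
        have h2 : m * head δ x = head δ x := by
          have := congrArg (head δ) h1
          rw [head_self] at this
          exact this
        have h3 : head δ x ≠ 1 := by
          intro h
          rw [h, mul_one] at h2
          exact hw.mem ⟨δ, m⟩ hl h2
        by_contra hna
        have hne : δ ≠ γ := fun h => hγw ⟨⟨δ, m⟩, hl, h⟩
        exact hγ (head_excl hne hna x h3)
    · obtain ⟨f1, f2⟩ := hS.fix hx
      have hlt := hS.lt
      have hy : head β (ι G β g' * x) = 1 := by
        by_contra hne
        rcases ih e1 hS.idem (by omega) _ f1 β hne with h | h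
        · exact h hS.hone
        · exact hS.not_link h
      have hxβ : head β x = g := by
        rw [f2, head_self, hy, mul_one]
      by_cases e1' : γ = β
      · left
        subst e1'
        rw [hS.hg]; exact hS.gne
      by_cases f : G.Adj β γ
      · have h1 : head γ (ι G β g' * x) ≠ 1 := by
          rw [head_adj f]; exact hγ
        rcases ih e1 hS.idem (by omega) _ f1 γ h1 with h | h
        · left
          rw [hS.hadj γ f]; exact h
        · right
          obtain ⟨w, hw, hl⟩ := h
          refine ⟨⟨β, g⟩ :: (w ++ [⟨β, g'⟩]), ?_, ?_⟩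
          · rw [ev_cons, ev_append, hw, ev_cons, ev_nil, mul_one]
            exact hS.eq.symm
          · intro k hk
            simp only [List.mem_cons, List.mem_append, List.not_mem_nil, or_false] at hk
            rcases hk with rfl | hk | rfl
            · exact f
            · exact hl k hk
            · exact f
      · exfalso
        apply hγ
        apply head_excl (Ne.symm e1') f x
        rw [hxβ]; exact hS.gne

/-- The head of a fixed point at the splitting vertex. -/
theorem Split.head_fix {e : GraphProduct G M} {β : V} {g g' : M β} {e1 : GraphProduct G M}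
    (h : Split e β g g' e1) {x : GraphProduct G M} (hx : e * x = x) : head β x = g := by
  obtain ⟨f1, f2⟩ := h.fix hx
  have hy : head β (ι G β g' * x) = 1 := by
    by_contra hne
    rcases fixed_head _ e1 h.idem le_rfl _ f1 β hne with k | k
    · exact k h.hone
    · exact h.not_link k
  rw [f2, head_self, hy, mul_one]

/-- Tail decomposition. -/
theorem exists_tail (α : V) (x : GraphProduct G M) :
    ∃ t : GraphProduct G M, x = ι G α (head α x) * t := by
  by_cases h : head α x = 1
  · exact ⟨x, by rw [h, ι_one, one_mul]⟩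
  · obtain ⟨w, hw, rfl⟩ := exists_red x
    rw [head_red hw] at h ⊢
    obtain ⟨w1, _, _, _, h4⟩ := extract hw α h
    exact ⟨ev w1, h4⟩

theorem ι_fix_iff {α : V} (f : M α) (x : GraphProduct G M) :
    ι G α f * x = x ↔ f * head α x = head α x := by
  constructor
  · intro h
    have := congrArg (head α) h
    rw [head_self] at this
    exact this
  · intro h
    obtain ⟨t, ht⟩ := exists_tail α x
    calc ι G α f * x = ι G α f * (ι G α (head α x) * t) := by rw [← ht]
      _ = ι G α (f * head α x) * t := by rw [ι_mul, mul_assoc]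
      _ = ι G α (head α x) * t := by rw [h]
      _ = x := ht.symm

/-- The conjugation argument when `c` cancels the head of `a`. -/
theorem trick {a b : GraphProduct G M} (hab : RTilde a b) {α : V} {c : M α}
    (hc : c * head α a = 1) {e : GraphProduct G M} (he : e * e = e)
    (h : e * (ι G α c * a) = ι G α c * a) : e * (ι G α c * b) = ι G α c * b := by
  obtain ⟨t, ht⟩ := exists_tail α a
  set k := head α a with hk
  have hι : ι G α c * ι G α k = 1 := by rw [← ι_mul, hc, ι_one]
  have hidem : (ι G α k * (e * ι G α c)) * (ι G α k * (e * ι G α c)) =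
      ι G α k * (e * ι G α c) := by
    calc (ι G α k * (e * ι G α c)) * (ι G α k * (e * ι G α c))
        = ι G α k * (e * ((ι G α c * ι G α k) * (e * ι G α c))) := by simp only [mul_assoc]
      _ = ι G α k * ((e * e) * ι G α c) := by rw [hι, one_mul, mul_assoc]
      _ = _ := by rw [he]
  have h1 : (ι G α k * (e * ι G α c)) * a = a := by
    calc (ι G α k * (e * ι G α c)) * a = ι G α k * (e * (ι G α c * a)) := by
          simp only [mul_assoc]
      _ = ι G α k * (ι G α c * a) := by rw [h]
      _ = ι G α k * (ι G α c * (ι G α k * t)) := by rw [← ht]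
      _ = ι G α k * ((ι G α c * ι G α k) * t) := by simp only [mul_assoc]
      _ = a := by rw [hι, one_mul]; exact ht.symm
  have h2 := (hab _ hidem).1 h1
  calc e * (ι G α c * b) = (ι G α c * ι G α k) * (e * (ι G α c * b)) := by rw [hι, one_mul]
    _ = ι G α c * ((ι G α k * (e * ι G α c)) * b) := by simp only [mul_assoc]
    _ = ι G α c * b := by rw [h2]

/-- Heads of related elements are related. -/
theorem head_rtilde {a b : GraphProduct G M} (hab : RTilde a b) (α : V) :
    RTilde (head α a) (head α b) := by
  intro f hf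
  rw [← ι_fix_iff, ← ι_fix_iff]
  exact hab _ (by rw [← ι_mul, hf])

/-- The case of an idempotent of a vertex monoid. -/
theorem vertex_case (hM : ∀ (α : V) (a b c : M α), RTilde a b → RTilde (c * a) (c * b))
    {a b : GraphProduct G M} (hab : RTilde a b) {α : V} {c : M α}
    (hc : c * head α a ≠ 1) {γ : V} {f : M γ} (hf : f * f = f)
    (h : ι G γ f * (ι G α c * a) = ι G α c * a) :
    ι G γ f * (ι G α c * b) = ι G α c * b := by
  by_cases e : γ = α
  · subst e
    rw [ι_fix_iff, head_self] at h ⊢
    exact (hM γ _ _ c (head_rtilde hab γ) f hf).1 h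
  by_cases k : G.Adj α γ
  · rw [ι_fix_iff, head_adj k] at h ⊢
    exact (head_rtilde hab γ f hf).1 h
  · rw [ι_fix_iff, head_ne e k _ _ hc, mul_one] at h
    rw [h, ι_one, one_mul]

/-- Main induction. -/
theorem main_step (hM : ∀ (α : V) (a b c : M α), RTilde a b → RTilde (c * a) (c * b)) :
    ∀ (n : ℕ) (e : GraphProduct G M), e * e = e → len e ≤ n →
    ∀ (a b : GraphProduct G M), RTilde a b → ∀ (α : V) (c : M α),
      e * (ι G α c * a) = ι G α c * a → e * (ι G α c * b) = ι G α c * b := by
  intro n
  induction n with
  | zero =>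
    intro e he hn a b hab α c h
    obtain ⟨w, hw, hwe⟩ := exists_red e
    have : w.length = 0 := by
      have := len_red hw
      rw [hwe] at this
      omega
    rw [List.length_eq_zero_iff] at this
    subst this
    rw [← hwe, ev_nil, one_mul]
  | succ n ih =>
    intro e he hn a b hab α c h
    by_cases hc : c * head α a = 1
    · exact trick hab hc he h
    have hxα : head α (ι G α c * a) ≠ 1 := by rw [head_self]; exact hc
    rcases classify' e he with ⟨w, hw, hwe, hp⟩ | ⟨β, g, g', e1, hS⟩
    · rw [← hwe] at he h ⊢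
      have hfix := clique_fix hp he h
      apply clique_fix_conv
      intro l hl
      exact vertex_case hM hab hc (hfix l hl).1 (hfix l hl).2
    · have hhead := hS.head_fix h
      have hlt := hS.lt
      obtain ⟨f1, f2⟩ := hS.fix h
      have hggi : (g * g') * (g * g') = g * g' := by
        calc (g * g') * (g * g') = g * ((g' * g) * g') := by simp only [mul_assoc]
          _ = g * g' := by rw [hS.inv, one_mul]
      have hggg : (g * g') * g = g := by rw [mul_assoc, hS.inv, mul_one]
      by_cases e' : β = α
      · subst e'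
        have h1 : ι G β (g * g') * (ι G β c * a) = ι G β c * a := by
          rw [ι_fix_iff, hhead]; exact hggg
        have h2 := vertex_case hM hab hc hggi h1
        have h3 : e1 * (ι G β (g' * c) * a) = ι G β (g' * c) * a := by
          rw [ι_mul, mul_assoc]; exact f1
        have h4 := ih e1 hS.idem (by omega) a b hab β (g' * c) h3
        rw [ι_mul, mul_assoc] at h4
        rw [hS.eq]
        calc ι G β g * (e1 * ι G β g') * (ι G β c * b)
            = ι G β g * (e1 * (ι G β g' * (ι G β c * b))) := by simp only [mul_assoc]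
          _ = ι G β g * (ι G β g' * (ι G β c * b)) := by rw [h4]
          _ = ι G β (g * g') * (ι G β c * b) := by rw [ι_mul, mul_assoc]
          _ = _ := h2
      by_cases k : G.Adj α β
      · have ha : head β a = g := by rw [head_adj k] at hhead; exact hhead
        have hinv : g' * head β a = 1 := by rw [ha]; exact hS.inv
        have hgga : ι G β (g * g') * a = a := by rw [ι_fix_iff, ha]; exact hggg
        have hggb : ι G β (g * g') * b = b := (hab _ (by rw [← ι_mul, hggi])).1 hgga
        have hab' : RTilde (ι G β g' * a) (ι G β g' * b) := by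
          intro f hf
          constructor
          · exact fun hfa => trick hab hinv hf hfa
          · intro hfb
            have hidem : (ι G β g * (f * ι G β g')) * (ι G β g * (f * ι G β g')) =
                ι G β g * (f * ι G β g') := by
              calc (ι G β g * (f * ι G β g')) * (ι G β g * (f * ι G β g'))
                  = ι G β g * (f * ((ι G β g' * ι G β g) * (f * ι G β g'))) := by
                    simp only [mul_assoc]
                _ = ι G β g * ((f * f) * ι G β g') := by rw [hS.ιinv, one_mul, mul_assoc]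
                _ = _ := by rw [hf]
            have h1 : (ι G β g * (f * ι G β g')) * b = b := by
              calc (ι G β g * (f * ι G β g')) * b = ι G β g * (f * (ι G β g' * b)) := by
                    simp only [mul_assoc]
                _ = ι G β g * (ι G β g' * b) := by rw [hfb]
                _ = ι G β (g * g') * b := by rw [ι_mul, mul_assoc]
                _ = b := hggb
            have h2 := (hab _ hidem).2 h1
            calc f * (ι G β g' * a) = (ι G β g' * ι G β g) * (f * (ι G β g' * a)) := by
                  rw [hS.ιinv, one_mul]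
              _ = ι G β g' * ((ι G β g * (f * ι G β g')) * a) := by simp only [mul_assoc]
              _ = ι G β g' * a := by rw [h2]
        have h3 : e1 * (ι G α c * (ι G β g' * a)) = ι G α c * (ι G β g' * a) := by
          rw [← mul_assoc (ι G α c), ι_comm k, mul_assoc]; exact f1
        have h4 := ih e1 hS.idem (by omega) _ _ hab' α c h3
        rw [hS.eq]
        calc ι G β g * (e1 * ι G β g') * (ι G α c * b)
            = ι G β g * (e1 * ((ι G β g' * ι G α c) * b)) := by simp only [mul_assoc]
          _ = ι G β g * (e1 * (ι G α c * (ι G β g' * b))) := by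
              rw [← ι_comm k, mul_assoc]
          _ = ι G β g * (ι G α c * (ι G β g' * b)) := by rw [h4]
          _ = (ι G β g * ι G α c) * (ι G β g' * b) := by rw [mul_assoc]
          _ = ι G α c * (ι G β (g * g') * b) := by
              rw [← ι_comm k, ι_mul]; simp only [mul_assoc]
          _ = ι G α c * b := by rw [hggb]
      · exfalso
        apply hS.gne
        rw [← hhead]
        exact head_excl (Ne.symm e') k _ hxα

theorem main (hM : ∀ α : V, IsLeftCongruence (RTilde (S := M α))) :
    IsLeftCongruence (RTilde (S := GraphProduct G M)) := by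
  refine ⟨rtilde_equivalence, ?_⟩
  have hM' : ∀ (α : V) (a b c : M α), RTilde a b → RTilde (c * a) (c * b) :=
    fun α => (hM α).2
  have hletter : ∀ (α : V) (c : M α) (a b : GraphProduct G M), RTilde a b →
      RTilde (ι G α c * a) (ι G α c * b) := by
    intro α c a b hab e he
    exact ⟨main_step hM' _ e he le_rfl a b hab α c,
      main_step hM' _ e he le_rfl b a (rtilde_equivalence.symm hab) α c⟩
  intro a b c hab
  obtain ⟨w, rfl⟩ := exists_word c
  induction w with
  | nil => simpa using hab
  | cons l w ih =>
    rw [ev_cons, mul_assoc, mul_assoc]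
    exact hletter _ _ _ _ ih

end Pool.Agent.R711.GP
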