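import Pool.Agent.R711.GP.Act

/-!
# Graph products of monoids : heads, reduced words, length
-/

namespace Pool.Agent.R711.GP

universe u v
variable {V : Type u} {G : SimpleGraph V} {M : V → Type v} [∀ α, Monoid (M α)]

variable (G M) in
/-- The quotient map. -/
noncomputable def mk : FreeMonoid (Σ α, M α) →* GraphProduct G M := (conGen (Rel G M)).mk'

theorem mk_rel {x y : FreeMonoid (Σ α, M α)} (h : Rel G M x y) : mk G M x = mk G M y :=
  (Con.eq _).2 (ConGen.Rel.of _ _ h)

variable (G) in
/-- The canonical map of a vertex monoid into the graph product. -/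
noncomputable def ι (α : V) (m : M α) : GraphProduct G M := mk G M (FreeMonoid.of ⟨α, m⟩)

theorem ι_mul (α : V) (a b : M α) : ι G α (a * b) = ι G α a * ι G α b := by
  unfold ι
  rw [← map_mul]
  exact (mk_rel (Rel.mul α a b)).symm

theorem ι_one (α : V) : ι G α (1 : M α) = 1 := by
  unfold ι
  rw [mk_rel (Rel.one α), map_one]

theorem ι_comm {α β : V} (h : G.Adj α β) (a : M α) (b : M β) :
    ι G α a * ι G β b = ι G β b * ι G α a := by
  unfold ι
  rw [← map_mul, ← map_mul]
  exact mk_rel (Rel.comm α β a b h)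

variable (G M) in
/-- Good observation functions. -/
def N : Type _ := {φ : Obs M // Good G φ}

variable (G) in
/-- The action of a letter. -/
noncomputable def letterAct (l : Σ α, M α) : Function.End (N G M) :=
  fun φ => ⟨A G l.1 l.2 φ.1, A_good l.1 l.2 φ.1 φ.2⟩

variable (G M) in
/-- The action of the free monoid. -/
noncomputable def rho0 : FreeMonoid (Σ α, M α) →* Function.End (N G M) :=
  FreeMonoid.lift (letterAct G)

theorem rho0_rel : conGen (Rel G M) ≤ Con.ker (rho0 G M) := by
  rw [Con.conGen_le]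
  intro x y h
  rw [Con.ker_rel]
  cases h with
  | mul α a b =>
    rw [map_mul]
    simp only [rho0, FreeMonoid.lift_eval_of]
    funext φ
    exact Subtype.ext (A_mul α a b φ.1)
  | one α =>
    rw [map_one]
    simp only [rho0, FreeMonoid.lift_eval_of]
    funext φ
    exact Subtype.ext (A_one α φ.1 φ.2)
  | comm α β a b h =>
    rw [map_mul, map_mul]
    simp only [rho0, FreeMonoid.lift_eval_of]
    funext φ
    exact Subtype.ext (A_comm h a b φ.1 φ.2)

variable (G M) in
/-- The action of the graph product on good observation functions. -/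
noncomputable def rho : GraphProduct G M →* Function.End (N G M) :=
  Con.lift _ (rho0 G M) rho0_rel

/-- The observation function of an element. -/
noncomputable def obs (x : GraphProduct G M) : Obs M :=
  (rho G M x ⟨fun _ _ => 1, good_one⟩ : N G M).1

/-- The head of an element at a vertex. -/
noncomputable def head (α : V) (x : GraphProduct G M) : M α := obs x [] α

theorem obs_good (x : GraphProduct G M) : Good G (obs x) :=
  (rho G M x ⟨fun _ _ => 1, good_one⟩ : N G M).2

theorem rho_ι (α : V) (m : M α) : rho G M (ι G α m) = letterAct G ⟨α, m⟩ := by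
  change rho0 G M (FreeMonoid.of ⟨α, m⟩) = _
  simp only [rho0, FreeMonoid.lift_eval_of]

theorem obs_mul (β : V) (m : M β) (x : GraphProduct G M) :
    obs (ι G β m * x) = A G β m (obs x) := by
  unfold obs
  rw [map_mul, rho_ι]
  rfl

theorem obs_one : obs (1 : GraphProduct G M) = fun _ _ => 1 := by
  unfold obs
  rw [map_one]
  rfl

theorem head_one (α : V) : head α (1 : GraphProduct G M) = 1 := by
  unfold head
  rw [obs_one]

theorem head_self (β : V) (m : M β) (x : GraphProduct G M) :
    head β (ι G β m * x) = m * head β x := by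
  unfold head
  rw [obs_mul, A_nil_self]

theorem head_adj {β α : V} (h : G.Adj β α) (m : M β) (x : GraphProduct G M) :
    head α (ι G β m * x) = head α x := by
  unfold head
  rw [obs_mul, A_nil_adj h]

theorem head_ne {β α : V} (h1 : α ≠ β) (h2 : ¬ G.Adj β α) (m : M β) (x : GraphProduct G M)
    (hm : m * head β x ≠ 1) : head α (ι G β m * x) = 1 := by
  unfold head
  rw [obs_mul]
  exact A_nil_ne h1 h2 _ _ hm

theorem head_excl {β γ : V} (h1 : β ≠ γ) (h2 : ¬ G.Adj β γ) (x : GraphProduct G M)
    (h : head β x ≠ 1) : head γ x = 1 :=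
  (obs_good x).l.g5 β γ h1 h2 h

/-- Evaluation of a word. -/
noncomputable def ev (w : List (Σ α, M α)) : GraphProduct G M :=
  (w.map (fun l => ι G l.1 l.2)).prod

@[simp] theorem ev_nil : ev ([] : List (Σ α, M α)) = (1 : GraphProduct G M) := by simp [ev]

@[simp] theorem ev_cons (l : Σ α, M α) (w : List (Σ α, M α)) :
    ev (G := G) (l :: w) = ι G l.1 l.2 * ev w := by simp [ev]

@[simp] theorem ev_append (w w' : List (Σ α, M α)) :
    ev (G := G) (w ++ w') = ev w * ev w' := by simp [ev]

theorem exists_word (x : GraphProduct G M) : ∃ w : List (Σ α, M α), ev w = x := by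
  obtain ⟨x, rfl⟩ : ∃ y, mk G M y = x := Con.mk'_surjective x
  refine ⟨FreeMonoid.toList x, ?_⟩
  induction x using FreeMonoid.inductionOn' with
  | one => rw [FreeMonoid.toList_one, ev_nil]; exact (map_one _).symm
  | of_mul l x ih =>
    rw [FreeMonoid.toList_mul, FreeMonoid.toList_of, ev_append, ih, ev_cons, ev_nil, mul_one,
      map_mul]
    rfl

open Classical in
variable (G) in
/-- Combinatorial head of a word. -/
noncomputable def hd (β : V) : List (Σ α, M α) → M β
  | [] => 1
  | l :: w => if h : l.1 = β then h ▸ l.2 else if G.Adj l.1 β then hd β w else 1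

@[simp] theorem hd_nil (β : V) : hd G β ([] : List (Σ α, M α)) = 1 := rfl

theorem hd_self (β : V) (m : M β) (w : List (Σ α, M α)) : hd G β (⟨β, m⟩ :: w) = m := by
  simp [hd]

theorem hd_adj {γ β : V} (h : G.Adj γ β) (m : M γ) (w : List (Σ α, M α)) :
    hd G β (⟨γ, m⟩ :: w) = hd G β w := by
  simp [hd, h.ne, h]

theorem hd_ne {γ β : V} (h1 : γ ≠ β) (h2 : ¬ G.Adj γ β) (m : M γ) (w : List (Σ α, M α)) :
    hd G β (⟨γ, m⟩ :: w) = 1 := by
  simp [hd, h1, h2]

variable (G) in
/-- Reduced words. -/
def Red : List (Σ α, M α) → Prop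
  | [] => True
  | l :: w => l.2 ≠ 1 ∧ hd G l.1 w = 1 ∧ Red w

theorem Red.mem {w : List (Σ α, M α)} (h : Red G w) : ∀ l ∈ w, l.2 ≠ 1 := by
  induction w with
  | nil => simp
  | cons l w ih =>
    intro k hk
    rcases List.mem_cons.1 hk with rfl | hk
    · exact h.1
    · exact ih h.2.2 k hk

theorem head_red {w : List (Σ α, M α)} (h : Red G w) (β : V) :
    head β (ev (G := G) w) = hd G β w := by
  induction w generalizing β with
  | nil => simp [head_one]
  | cons l w ih =>
    obtain ⟨γ, m⟩ := l
    obtain ⟨h1, h2, h3⟩ := h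
    rw [ev_cons]
    by_cases e : γ = β
    · subst e
      rw [head_self, ih h3, h2, mul_one, hd_self]
    by_cases f : G.Adj γ β
    · rw [head_adj f, hd_adj f, ih h3]
    · rw [hd_ne e f]
      apply head_ne (Ne.symm e) f
      rw [ih h3, h2, mul_one]
      exact h1

/-- Extraction of a head from a reduced word. -/
theorem extract {w : List (Σ α, M α)} (h : Red G w) (γ : V) (hγ : hd G γ w ≠ 1) :
    ∃ w1 : List (Σ α, M α), Red G w1 ∧ hd G γ w1 = 1 ∧ w1.length + 1 = w.length ∧
      ev (G := G) w = ι G γ (hd G γ w) * ev w1 := by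
  induction w with
  | nil => exact absurd rfl hγ
  | cons l w ih =>
    obtain ⟨δ, k⟩ := l
    obtain ⟨h1, h2, h3⟩ := h
    by_cases e : δ = γ
    · subst e
      refine ⟨w, h3, h2, rfl, ?_⟩
      rw [hd_self, ev_cons]
    by_cases f : G.Adj δ γ
    · rw [hd_adj f] at hγ ⊢
      obtain ⟨w1, r1, r2, r3, r4⟩ := ih h3 hγ
      have h4 : hd G δ w1 = 1 := by
        have h5 : head δ (ev (G := G) w) = 1 := by rw [head_red h3]; exact h2
        rw [r4, head_adj f.symm, head_red r1] at h5
        exact h5
      refine ⟨⟨δ, k⟩ :: w1, ⟨h1, h4, r1⟩, ?_, ?_, ?_⟩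
      · rw [hd_adj f, r2]
      · simp only [List.length_cons]; omega
      · rw [ev_cons, ev_cons, r4, ← mul_assoc, ← mul_assoc, ι_comm f]
    · exact absurd (hd_ne e f _ _) hγ

theorem exists_red_le (w : List (Σ α, M α)) :
    ∃ w' : List (Σ α, M α), Red G w' ∧ ev (G := G) w' = ev w ∧ w'.length ≤ w.length := by
  induction w with
  | nil => exact ⟨[], trivial, rfl, le_rfl⟩
  | cons l w ih =>
    obtain ⟨γ, m⟩ := l
    obtain ⟨w', r1, r2, r3⟩ := ih
    by_cases hm : m = 1
    · subst hm
      refine ⟨w', r1, ?_, ?_⟩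
      · rw [ev_cons, ι_one, one_mul, r2]
      · simp only [List.length_cons]; omega
    by_cases hh : hd G γ w' = 1
    · refine ⟨⟨γ, m⟩ :: w', ⟨hm, hh, r1⟩, ?_, ?_⟩
      · rw [ev_cons, ev_cons, r2]
      · simp only [List.length_cons]; omega
    obtain ⟨w1, s1, s2, s3, s4⟩ := extract r1 γ hh
    by_cases hk : m * hd G γ w' = 1
    · refine ⟨w1, s1, ?_, ?_⟩
      · rw [ev_cons, ← r2, s4, ← mul_assoc, ← ι_mul, hk, ι_one, one_mul]
      · simp only [List.length_cons]; omega
    · refine ⟨⟨γ, m * hd G γ w'⟩ :: w1, ⟨hk, s2, s1⟩, ?_, ?_⟩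
      · rw [ev_cons, ev_cons, ← r2, s4, ← mul_assoc, ← ι_mul]
      · simp only [List.length_cons]; omega

theorem red_length {w w' : List (Σ α, M α)} (h : Red G w) (h' : Red G w')
    (ho : obs (ev (G := G) w) = obs (ev (G := G) w')) : w.length = w'.length := by
  induction w generalizing w' with
  | nil =>
    cases w' with
    | nil => rfl
    | cons l w' =>
      obtain ⟨γ, m⟩ := l
      exfalso
      have h1 : head γ (ev (G := G) ([] : List (Σ α, M α))) =
          head γ (ev (G := G) (⟨γ, m⟩ :: w')) := by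
        unfold head; rw [ho]
      rw [ev_nil, head_one, head_red h', hd_self] at h1
      exact h'.1 h1.symm
  | cons l w ih =>
    obtain ⟨γ, m⟩ := l
    obtain ⟨h1, h2, h3⟩ := h
    have k1 : head γ (ev (G := G) (⟨γ, m⟩ :: w)) = head γ (ev (G := G) w') := by
      unfold head; rw [ho]
    rw [head_red (w := ⟨γ, m⟩ :: w) ⟨h1, h2, h3⟩, hd_self, head_red h'] at k1
    obtain ⟨w1, s1, s2, s3, s4⟩ := extract h' γ (by rw [← k1]; exact h1)
    have aux : ∀ u : List (Σ α, M α), Red G u → hd G γ u = 1 →
        sh γ (obs (ι G γ m * ev (G := G) u)) = obs (ev (G := G) u) := by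
      intro u hu hu1
      rw [obs_mul, sh_A_self]
      apply (obs_good _).l.g2
      change head γ (ev (G := G) u) = 1
      rw [head_red hu]; exact hu1
    have k2 : obs (ev (G := G) w) = obs (ev (G := G) w1) := by
      rw [← aux w h3 h2, ← aux w1 s1 s2]
      rw [ev_cons, s4, ← k1] at ho
      rw [ho]
    have := ih h3 s1 k2
    simp only [List.length_cons]
    omega

theorem exists_red (x : GraphProduct G M) : ∃ w : List (Σ α, M α), Red G w ∧ ev w = x := by
  obtain ⟨w, rfl⟩ := exists_word x
  obtain ⟨w', h1, h2, _⟩ := exists_red_le (G := G) w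
  exact ⟨w', h1, h2⟩

/-- The length of an element. -/
noncomputable def len (x : GraphProduct G M) : ℕ := (exists_red x).choose.length

theorem len_red {w : List (Σ α, M α)} (h : Red G w) : len (ev (G := G) w) = w.length := by
  obtain ⟨h1, h2⟩ := (exists_red (ev (G := G) w)).choose_spec
  exact red_length h1 h (by rw [h2])

theorem len_le (w : List (Σ α, M α)) : len (ev (G := G) w) ≤ w.length := by
  obtain ⟨w', h1, h2, h3⟩ := exists_red_le (G := G) w
  rw [← h2, len_red h1]
  exact h3

theorem len_mul_one {β : V} {m : M β} {x : GraphProduct G M} (hm : m ≠ 1)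
    (hx : head β x = 1) : len (ι G β m * x) = len x + 1 := by
  obtain ⟨w, h, rfl⟩ := exists_red x
  rw [head_red h] at hx
  have h1 : Red G (⟨β, m⟩ :: w) := ⟨hm, hx, h⟩
  have h2 := len_red h1
  rw [ev_cons] at h2
  rw [h2, len_red h]
  rfl

theorem len_mul_ne {β : V} {m : M β} {x : GraphProduct G M} (hm : m * head β x ≠ 1)
    (hx : head β x ≠ 1) : len (ι G β m * x) = len x := by
  obtain ⟨w, h, rfl⟩ := exists_red x
  rw [head_red h] at hx hm
  obtain ⟨w1, s1, s2, s3, s4⟩ := extract h β hx
  have h1 : Red G (⟨β, m * hd G β w⟩ :: w1) := ⟨hm, s2, s1⟩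
  have h2 := len_red h1
  rw [ev_cons, ι_mul, mul_assoc, ← s4] at h2
  rw [h2, len_red h, ← s3]
  rfl

theorem len_mul_le {β : V} {m : M β} {x : GraphProduct G M}
    (hx : head β x ≠ 1) : len (ι G β m * x) ≤ len x := by
  by_cases hm : m * head β x = 1
  · obtain ⟨w, h, rfl⟩ := exists_red x
    rw [head_red h] at hx hm
    obtain ⟨w1, s1, s2, s3, s4⟩ := extract h β hx
    have : ι G β m * ev (G := G) w = ev w1 := by
      rw [s4, ← mul_assoc, ← ι_mul, hm, ι_one, one_mul]
    rw [this, len_red s1, len_red h]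
    omega
  · exact (len_mul_ne hm hx).le

theorem red_of_min {w : List (Σ α, M α)} (h : w.length ≤ len (ev (G := G) w)) : Red G w := by
  induction w with
  | nil => trivial
  | cons l w ih =>
    obtain ⟨γ, m⟩ := l
    rw [ev_cons] at h
    simp only [List.length_cons] at h
    have hw := len_le (G := G) w
    have hm : m ≠ 1 := by
      rintro rfl
      rw [ι_one, one_mul] at h
      omega
    have h1 : head γ (ev (G := G) w) = 1 := by
      by_contra hne
      have := len_mul_le (m := m) hne
      omega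
    have h2 : Red G w := by
      apply ih
      have := len_mul_one hm h1
      omega
    rw [head_red h2] at h1
    exact ⟨hm, h1, h2⟩

theorem head_link {β : V} {w : List (Σ α, M α)} (h : ∀ l ∈ w, G.Adj l.1 β)
    (y : GraphProduct G M) : head β (ev w * y) = head β y := by
  induction w with
  | nil => simp
  | cons l w ih =>
    rw [ev_cons, mul_assoc, head_adj (h l (by simp)), ih (fun k hk => h k (by simp [hk]))]

theorem comm_link {β : V} {w : List (Σ α, M α)} (h : ∀ l ∈ w, G.Adj l.1 β) (m : M β) :
    ev (G := G) w * ι G β m = ι G β m * ev w := by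
  induction w with
  | nil => simp
  | cons l w ih =>
    rw [ev_cons, mul_assoc, ih (fun k hk => h k (by simp [hk])), ← mul_assoc,
      ι_comm (h l (by simp)), mul_assoc]

theorem hd_link {β : V} {w : List (Σ α, M α)} (h : ∀ l ∈ w, G.Adj l.1 β)
    (v : List (Σ α, M α)) : hd G β (w ++ v) = hd G β v := by
  induction w with
  | nil => rfl
  | cons l w ih =>
    obtain ⟨γ, m⟩ := l
    rw [List.cons_append, hd_adj (h ⟨γ, m⟩ (by simp)), ih (fun k hk => h k (by simp [hk]))]

theorem hd_block {β : V} {w : List (Σ α, M α)} (h : ¬ ∀ l ∈ w, G.Adj l.1 β)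
    (v : List (Σ α, M α)) : hd G β (w ++ v) = hd G β w := by
  induction w with
  | nil => exact absurd (by simp) h
  | cons l w ih =>
    obtain ⟨γ, m⟩ := l
    rw [List.cons_append]
    by_cases e : γ = β
    · subst e; rw [hd_self, hd_self]
    by_cases f : G.Adj γ β
    · rw [hd_adj f, hd_adj f, ih]
      intro h'
      apply h
      intro k hk
      rcases List.mem_cons.1 hk with rfl | hk
      · exact f
      · exact h' k hk
    · rw [hd_ne e f, hd_ne e f]

theorem hd_append_ne {β γ : V} (hne : γ ≠ β) (w : List (Σ α, M α)) (m : M β) :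
    hd G γ (w ++ [⟨β, m⟩]) = hd G γ w := by
  by_cases h : ∀ l ∈ w, G.Adj l.1 γ
  · rw [hd_link h]
    have : hd G γ w = 1 := by
      have := hd_link h []
      rw [List.append_nil] at this
      rw [this]; rfl
    rw [this]
    by_cases f : G.Adj β γ
    · rw [hd_adj f]; rfl
    · rw [hd_ne (Ne.symm hne) f]
  · rw [hd_block h]

end Pool.Agent.R711.GP
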